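import Mathlib
import Pool.Agent.Y454.LP.Pig
import Pool.Agent.Y791.LP.Prod
import Pool.Agent.Y791.LP.Unit
import Pool.Agent.Y791.LP.Lin
import Pool.Agent.Y791.LP.Nonlin

/-!
# Polynomial values as sums of scaled prime powers: the polynomials with the finite union property

The polynomials of degree at most one are exactly those for which all sets `S(f; g_1, …, g_s; p)` are
finite unions of arithmetic progressions and `p`-sum sets (inside the nonnegative integers). For every
polynomial `f` of degree `d ≥ 2` over the algebraic numbers the property fails for every prime with the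
same `2 d + 1` constants: the coefficients of `f (x ^ 2 + x + t)`, for every sufficiently large integer `t`.

The definitions `solSet`, `IsAP`, `IsPSumSet`, `IsTraceOfFiniteUnion` are those of the file
`Pool.Agent.Results.MP_a804c6_nt.LinkedExponents`.
-/

set_option autoImplicit false

open Polynomial

namespace Pool.Agent.Results.MP_a804c6_nt.Dichotomy

open Pool.Agent.Results.MP_a804c6_nt.LinkedExponents

/-- **Dichotomy.** Let `f` be a polynomial over the algebraic numbers. If its degree is at most one then
for every prime `p` and all constants `g_j` the set `S(f; g; p)` is the set of the nonnegative integers of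
a finite union of arithmetic progressions and `p`-sum sets. If its degree `d` is at least two then for every
sufficiently large natural number `t` the `2 d + 1` coefficients `g_j` of `f (x ^ 2 + x + t)` are not zero
and for no prime `p` the set `S(f; g; p)` is the set of the nonnegative integers of such a union. -/
theorem result (f : (AlgebraicClosure ℚ)[X]) :
    (f.natDegree ≤ 1 → ∀ p : ℕ, p.Prime → ∀ (s : ℕ) (g : Fin s → AlgebraicClosure ℚ),
      IsTraceOfFiniteUnion p (solSet p f g)) ∧
    (2 ≤ f.natDegree → ∃ t₀ : ℕ, ∀ t : ℕ, t₀ ≤ t →
      (∀ j : Fin (2 * f.natDegree + 1),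
        (f.comp (X ^ 2 + X + C (t : AlgebraicClosure ℚ))).coeff j ≠ 0) ∧
      ∀ p : ℕ, p.Prime → ¬ IsTraceOfFiniteUnion p (solSet p f
        (fun j : Fin (2 * f.natDegree + 1) =>
          (f.comp (X ^ 2 + X + C (t : AlgebraicClosure ℚ))).coeff j))) :=
  ⟨fun hf p hp s g => Pool.Agent.Y791.LP.Lin.main (Pool.Agent.Y791.LP.Unit.main
      Pool.Agent.Y454.LP.Pig.main Pool.Agent.Y791.LP.Prod.main) p hp f hf s g,
    fun hf => Pool.Agent.Y791.LP.Nonlin.main f hf⟩

/-- The assertion of Q1 for a fixed polynomial (all primes, all `s`, all constants, equality inside the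
nonnegative integers) holds if and only if the degree is at most one. -/
theorem iff_degree (f : (AlgebraicClosure ℚ)[X]) :
    (∀ p : ℕ, p.Prime → ∀ s : ℕ, 1 ≤ s → ∀ g : Fin s → AlgebraicClosure ℚ,
      IsTraceOfFiniteUnion p (solSet p f g)) ↔ f.natDegree ≤ 1 := by
  constructor
  · intro h
    by_contra hcon
    obtain ⟨t₀, ht⟩ := (result f).2 (by omega)
    exact (ht t₀ le_rfl).2 2 Nat.prime_two (h 2 Nat.prime_two _ (by omega) _)
  · intro h p hp s _ g
    exact (result f).1 h p hp s g

end Pool.Agent.Results.MP_a804c6_nt.Dichotomy
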